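import Mathlib

set_option autoImplicit false

namespace Pool.Agent.Results.MP_e0e142_ag.Q1

open Matrix

/-- The Gaussian double Markovian model M(G,H). -/
def model {n : ℕ} (G H : SimpleGraph (Fin n)) : Set (Matrix (Fin n) (Fin n) ℝ) :=
  {S | S.PosDef ∧ (∀ i j, i ≠ j → ¬ G.Adj i j → S⁻¹ i j = 0) ∧
    (∀ i j, i ≠ j → ¬ H.Adj i j → S i j = 0)}

/-- The correlation model: unit diagonal. -/
def corrModel {n : ℕ} (G H : SimpleGraph (Fin n)) : Set (Matrix (Fin n) (Fin n) ℝ) :=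
  {S | S ∈ model G H ∧ ∀ i, S i i = 1}

def dd (i j : Fin 12) : ℕ := min ((i.val + 12 - j.val) % 12) ((j.val + 12 - i.val) % 12)

def gG : SimpleGraph (Fin 12) := SimpleGraph.fromRel fun i j => ¬ (dd i j = 2 ∨ dd i j = 5)
def gH : SimpleGraph (Fin 12) := SimpleGraph.fromRel fun i j => dd i j = 1 ∨ dd i j = 2

theorem gG_adj (i j : Fin 12) : gG.Adj i j ↔ i ≠ j ∧ ¬ (dd i j = 2 ∨ dd i j = 5) := by
  rw [gG, SimpleGraph.fromRel_adj]; revert i j; decide +kernel
theorem gH_adj (i j : Fin 12) : gH.Adj i j ↔ (dd i j = 1 ∨ dd i j = 2) := by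
  rw [gH, SimpleGraph.fromRel_adj]; revert i j; decide +kernel

def Sz (i j : Fin 12) : ℤ :=
  if i = j then (if i.val % 2 = 0 then 4 else 28) else if dd i j = 1 then -7
  else if dd i j = 2 then (if i.val % 2 = 0 then 1 else 7) else 0
def Kl : List (List ℤ) := [[63, 14, 0, -7, -14, 0, 7, 0, -14, -7, 0, 14], [14, 9, 14, 0, -7, -2, 0, 1, 0, -2, -7, 0], [0, 14, 63, 14, 0, -7, -14, 0, 7, 0, -14, -7], [-7, 0, 14, 9, 14, 0, -7, -2, 0, 1, 0, -2], [-14, -7, 0, 14, 63, 14, 0, -7, -14, 0, 7, 0], [0, -2, -7, 0, 14, 9, 14, 0, -7, -2, 0, 1], [7, 0, -14, -7, 0, 14, 63, 14, 0, -7, -14, 0], [0, 1, 0, -2, -7, 0, 14, 9, 14, 0, -7, -2], [-14, 0, 7, 0, -14, -7, 0, 14, 63, 14, 0, -7], [-7, -2, 0, 1, 0, -2, -7, 0, 14, 9, 14, 0], [0, -7, -14, 0, 7, 0, -14, -7, 0, 14, 63, 14], [14, 0, -7, -2, 0, 1, 0, -2, -7, 0, 14, 9]]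
def Kz (i j : Fin 12) : ℤ := (Kl.getD i.val []).getD j.val 0
def Wl : List (List (List ℤ)) := [[[0, 0, 21, 0, 0, -4545, 0, -2970, 0, 0, -1050, 0], [0, 0, 0, -7350, 0, 0, -2970, 0, -4545, 0, 0, 147], [21, 0, 0, 0, 609, 0, 0, 5535, 0, 2595, 0, 0], [0, -7350, 0, 0, 0, -2107, 0, 0, -835, 0, -3810, 0], [0, 0, 609, 0, 0, 0, -1260, 0, 0, -6750, 0, 2595], [-4545, 0, 0, -2107, 0, 0, 0, 3087, 0, 0, -835, 0], [0, -2970, 0, 0, -1260, 0, 0, 0, 441, 0, 0, 5535], [-2970, 0, 5535, 0, 0, 3087, 0, 0, 0, -8820, 0, 0], [0, -4545, 0, -835, 0, 0, 441, 0, 0, 0, -301, 0], [0, 0, 2595, 0, -6750, 0, 0, -8820, 0, 0, 0, 4263], [-1050, 0, 0, -3810, 0, -835, 0, 0, -301, 0, 0, 0], [0, 147, 0, 0, 2595, 0, 5535, 0, 0, 4263, 0, 0]],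
  [[0, 0, -102, 0, 0, -450, 0, -1185, 0, 0, 81, 0], [0, 0, 0, 1323, 0, 0, 2175, 0, 2175, 0, 0, 1323], [-102, 0, 0, 0, 81, 0, 0, -1185, 0, -450, 0, 0], [0, 1323, 0, 0, 0, -2156, 0, 0, -1640, 0, 75, 0], [0, 0, 81, 0, 0, 0, 381, 0, 0, 1685, 0, 75], [-450, 0, 0, -2156, 0, 0, 0, 833, 0, 0, 1685, 0], [0, 2175, 0, 0, 381, 0, 0, 0, -382, 0, 0, -1640], [-1185, 0, -1185, 0, 0, 833, 0, 0, 0, 833, 0, 0], [0, 2175, 0, -1640, 0, 0, -382, 0, 0, 0, 381, 0], [0, 0, -450, 0, 1685, 0, 0, 833, 0, 0, 0, -2156], [81, 0, 0, 75, 0, 1685, 0, 0, 381, 0, 0, 0], [0, 1323, 0, 0, 75, 0, -1640, 0, 0, -2156, 0, 0]],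
  [[0, 0, 21, 0, 0, 2595, 0, 5535, 0, 0, 609, 0], [0, 0, 0, 147, 0, 0, -4545, 0, -2970, 0, 0, -7350], [21, 0, 0, 0, -1050, 0, 0, -2970, 0, -4545, 0, 0], [0, 147, 0, 0, 0, 4263, 0, 0, 5535, 0, 2595, 0], [0, 0, -1050, 0, 0, 0, -301, 0, 0, -835, 0, -3810], [2595, 0, 0, 4263, 0, 0, 0, -8820, 0, 0, -6750, 0], [0, -4545, 0, 0, -301, 0, 0, 0, 441, 0, 0, -835], [5535, 0, -2970, 0, 0, -8820, 0, 0, 0, 3087, 0, 0], [0, -2970, 0, 5535, 0, 0, 441, 0, 0, 0, -1260, 0], [0, 0, -4545, 0, -835, 0, 0, 3087, 0, 0, 0, -2107], [609, 0, 0, 2595, 0, -6750, 0, 0, -1260, 0, 0, 0], [0, -7350, 0, 0, -3810, 0, -835, 0, 0, -2107, 0, 0]],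
  [[0, 0, 1323, 0, 0, 525, 0, -11480, 0, 0, -2156, 0], [0, 0, 0, -4998, 0, 0, -3150, 0, -8295, 0, 0, 3969], [1323, 0, 0, 0, 1323, 0, 0, 15225, 0, 15225, 0, 0], [0, -4998, 0, 0, 0, 3969, 0, 0, -8295, 0, -3150, 0], [0, 0, 1323, 0, 0, 0, -2156, 0, 0, -11480, 0, 525], [525, 0, 0, 3969, 0, 0, 0, 18669, 0, 0, 11795, 0], [0, -3150, 0, 0, -2156, 0, 0, 0, 833, 0, 0, 11795], [-11480, 0, 15225, 0, 0, 18669, 0, 0, 0, -18718, 0, 0], [0, -8295, 0, -8295, 0, 0, 833, 0, 0, 0, 833, 0], [0, 0, 15225, 0, -11480, 0, 0, -18718, 0, 0, 0, 18669], [-2156, 0, 0, -3150, 0, 11795, 0, 0, 833, 0, 0, 0], [0, 3969, 0, 0, 525, 0, 11795, 0, 0, 18669, 0, 0]]]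
def Wz (a : Fin 12) (k : Fin 2) (i j : Fin 12) : ℤ :=
  ((Wl.getD (2 * (a.val % 2) + k.val) []).getD ((i.val + 12 + a.val % 2 - a.val) % 12) []).getD
    ((j.val + 12 + a.val % 2 - a.val) % 12) 0
def nx (a : Fin 12) (k : Fin 2) : Fin 12 := if k = 0 then a + 1 else a + 2
def Rz (i j : Fin 12) : ℤ :=
  if i = j then (if i.val % 2 = 0 then -1 else -7) else if dd i j = 1 then 2 else 0
def wz (i : Fin 12) : ℤ := if i.val % 2 = 0 then 7 else 1
def ez (i : Fin 12) : ℤ := if i.val % 2 = 0 then 1 else 7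

theorem h1 : ∀ i j, ∑ k, Sz i k * Kz k j = if i = j then 56 else 0 := by decide +kernel
theorem h1' : ∀ i j, ∑ k, Kz i k * Sz k j = if i = j then 56 else 0 := by decide +kernel
theorem h2 : ∀ i j, (dd i j = 2 ∨ dd i j = 5) → Kz i j = 0 := by decide +kernel
theorem h3 : ∀ i j, i ≠ j → ¬ (dd i j = 1 ∨ dd i j = 2) → Sz i j = 0 := by decide +kernel
theorem h3' : ∀ i j, Sz i j = Sz j i := by decide +kernel
theorem h3d : ∀ i, Sz i i = 4 * ez i := by decide +kernel
theorem h4 : ∀ i j, ∑ k, Rz k i * wz k * Rz k j + (if i = j then ez i else 0) = 4 * Sz i j := by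
  decide +kernel
theorem h5 : ∀ a k i j, ¬ (dd i j = 2 ∨ dd i j = 5) → Wz a k i j = 0 := by decide +kernel
def P6 (a : Fin 12) : Prop := ∀ k p q, (dd p q = 1 ∨ dd p q = 2) →
    ∑ i, ∑ j, Wz a k i j * Kz i p * Kz q j =
      (if p = a then (if q = nx a k then 344960 else 0) else 0) +
      (if p = nx a k then (if q = a then 344960 else 0) else 0)
theorem h6_0 : P6 0 := by unfold P6; decide +kernel
theorem h6_1 : P6 1 := by unfold P6; decide +kernel
theorem h6_2 : P6 2 := by unfold P6; decide +kernel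
theorem h6_3 : P6 3 := by unfold P6; decide +kernel
theorem h6_4 : P6 4 := by unfold P6; decide +kernel
theorem h6_5 : P6 5 := by unfold P6; decide +kernel
theorem h6_6 : P6 6 := by unfold P6; decide +kernel
theorem h6_7 : P6 7 := by unfold P6; decide +kernel
theorem h6_8 : P6 8 := by unfold P6; decide +kernel
theorem h6_9 : P6 9 := by unfold P6; decide +kernel
theorem h6_10 : P6 10 := by unfold P6; decide +kernel
theorem h6_11 : P6 11 := by unfold P6; decide +kernel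
theorem h6 (a : Fin 12) : P6 a := by
  fin_cases a
  exacts [h6_0, h6_1, h6_2, h6_3, h6_4, h6_5, h6_6, h6_7, h6_8, h6_9, h6_10, h6_11]
theorem h7 : ∀ p q, (dd p q = 1 ∨ dd p q = 2) → ∃ k, q = nx p k ∨ p = nx q k := by decide +kernel
theorem h8 : ∀ p q, (dd p q = 2 ∨ dd p q = 5) → p ≠ q := by decide +kernel
theorem h9 : ∀ i, 0 < ez i ∧ 0 < wz i := by decide +kernel

theorem inj (δ : Fin 12 → Fin 12 → ℝ) (hs : ∀ i j, δ i j = δ j i)
    (h0 : ∀ i j, ¬ (dd i j = 1 ∨ dd i j = 2) → δ i j = 0)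
    (hk : ∀ i j, (dd i j = 2 ∨ dd i j = 5) →
      ∑ p, ∑ q, (Kz i p : ℝ) * δ p q * (Kz q j : ℝ) = 0) : δ = 0 := by
  have key : ∀ a k, δ a (nx a k) = 0 := by
    intro a k
    have e1 : ∑ i, ∑ j, (Wz a k i j : ℝ) * ∑ p, ∑ q, (Kz i p : ℝ) * δ p q * (Kz q j : ℝ) = 0 := by
      refine Finset.sum_eq_zero fun i _ => Finset.sum_eq_zero fun j _ => ?_
      by_cases h : dd i j = 2 ∨ dd i j = 5
      · rw [hk i j h, mul_zero]
      · rw [h5 a k i j h]; simp
    have e2 : ∑ i, ∑ j, (Wz a k i j : ℝ) * ∑ p, ∑ q, (Kz i p : ℝ) * δ p q * (Kz q j : ℝ)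
        = ∑ p, ∑ q, ((∑ i, ∑ j, Wz a k i j * Kz i p * Kz q j : ℤ) : ℝ) * δ p q := by
      push_cast
      simp only [Finset.mul_sum, Finset.sum_mul]
      calc _ = ∑ i, ∑ p, ∑ j, ∑ q, (Wz a k i j : ℝ) * ((Kz i p : ℝ) * δ p q * (Kz q j : ℝ)) :=
            Finset.sum_congr rfl fun i _ => Finset.sum_comm
        _ = ∑ p, ∑ i, ∑ j, ∑ q, (Wz a k i j : ℝ) * ((Kz i p : ℝ) * δ p q * (Kz q j : ℝ)) :=
            Finset.sum_comm
        _ = ∑ p, ∑ i, ∑ q, ∑ j, (Wz a k i j : ℝ) * ((Kz i p : ℝ) * δ p q * (Kz q j : ℝ)) :=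
            Finset.sum_congr rfl fun p _ => Finset.sum_congr rfl fun i _ => Finset.sum_comm
        _ = ∑ p, ∑ q, ∑ i, ∑ j, (Wz a k i j : ℝ) * ((Kz i p : ℝ) * δ p q * (Kz q j : ℝ)) :=
            Finset.sum_congr rfl fun p _ => Finset.sum_comm
        _ = _ := Finset.sum_congr rfl fun p _ => Finset.sum_congr rfl fun q _ =>
            Finset.sum_congr rfl fun i _ => Finset.sum_congr rfl fun j _ => by ring
    have e3 : ∀ p q, ((∑ i, ∑ j, Wz a k i j * Kz i p * Kz q j : ℤ) : ℝ) * δ p q =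
        (if p = a then (if q = nx a k then 344960 * δ p q else 0) else 0) +
        (if p = nx a k then (if q = a then 344960 * δ p q else 0) else 0) := by
      intro p q
      by_cases h : dd p q = 1 ∨ dd p q = 2
      · rw [h6 a k p q h]; split_ifs <;> push_cast <;> ring
      · rw [h0 p q h]; simp
    rw [e2] at e1
    simp only [e3, Finset.sum_add_distrib] at e1
    simp at e1
    have := hs (nx a k) a
    linarith
  funext p q
  by_cases h : dd p q = 1 ∨ dd p q = 2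
  · obtain ⟨k, hk | hk⟩ := h7 p q h
    · rw [hk]; exact key p k
    · rw [hs, hk]; exact key q k
  · exact h0 p q h

abbrev V := Fin 12 → Fin 12 → ℝ

noncomputable def L : (V × V) →ₗ[ℝ] (V × V × V × V) where
  toFun x := (fun i j => ∑ k, ((Sz i k : ℝ) * x.2 k j + x.1 i k * (Kz k j : ℝ)),
    fun i j => x.1 i j - x.1 j i,
    fun i j => if dd i j = 1 ∨ dd i j = 2 then 0 else x.1 i j,
    fun i j => if dd i j = 2 ∨ dd i j = 5 then x.2 i j else 0)
  map_add' x y := by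
    refine Prod.ext ?_ (Prod.ext ?_ (Prod.ext ?_ ?_)) <;> funext i j
    · simp only [Prod.fst_add, Prod.snd_add, Pi.add_apply, ← Finset.sum_add_distrib]
      exact Finset.sum_congr rfl fun k _ => by ring
    · simp only [Prod.fst_add, Prod.snd_add, Pi.add_apply]; ring
    · simp only [Prod.fst_add, Prod.snd_add, Pi.add_apply]; split_ifs <;> simp
    · simp only [Prod.fst_add, Prod.snd_add, Pi.add_apply]; split_ifs <;> simp
  map_smul' c x := by
    refine Prod.ext ?_ (Prod.ext ?_ (Prod.ext ?_ ?_)) <;> funext i j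
    · simp only [Prod.smul_fst, Prod.smul_snd, Pi.smul_apply, smul_eq_mul, RingHom.id_apply,
        Finset.mul_sum]
      exact Finset.sum_congr rfl fun k _ => by ring
    · simp only [Prod.smul_fst, Prod.smul_snd, Pi.smul_apply, smul_eq_mul, RingHom.id_apply]; ring
    · simp only [Prod.smul_fst, Prod.smul_snd, Pi.smul_apply, smul_eq_mul, RingHom.id_apply]
      split_ifs <;> simp
    · simp only [Prod.smul_fst, Prod.smul_snd, Pi.smul_apply, smul_eq_mul, RingHom.id_apply]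
      split_ifs <;> simp

noncomputable def Sr : Matrix (Fin 12) (Fin 12) ℝ := Matrix.of fun i j => (Sz i j : ℝ)
noncomputable def Kr : Matrix (Fin 12) (Fin 12) ℝ := Matrix.of fun i j => (Kz i j : ℝ)

theorem KS : Kr * Sr = (56 : ℝ) • (1 : Matrix (Fin 12) (Fin 12) ℝ) := by
  ext i j
  have := congrArg (Int.cast : ℤ → ℝ) (h1' i j)
  simp only [Kr, Sr, mul_apply, of_apply, Matrix.smul_apply, Matrix.one_apply, smul_eq_mul]
  push_cast at this
  rw [this]; split_ifs <;> simp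

theorem SK : Sr * Kr = (56 : ℝ) • (1 : Matrix (Fin 12) (Fin 12) ℝ) := by
  ext i j
  have := congrArg (Int.cast : ℤ → ℝ) (h1 i j)
  simp only [Kr, Sr, mul_apply, of_apply, Matrix.smul_apply, Matrix.one_apply, smul_eq_mul]
  push_cast at this
  rw [this]; split_ifs <;> simp

theorem L_ker : LinearMap.ker L = ⊥ := by
  rw [LinearMap.ker_eq_bot']
  rintro ⟨δ, ε⟩ h
  have a1 : ∀ i j, ∑ k, ((Sz i k : ℝ) * ε k j + δ i k * (Kz k j : ℝ)) = 0 :=
    fun i j => congrFun (congrFun (congrArg Prod.fst h) i) j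
  have a2 : ∀ i j, δ i j - δ j i = 0 :=
    fun i j => congrFun (congrFun (congrArg (fun z => z.2.1) h) i) j
  have a3 : ∀ i j, (if dd i j = 1 ∨ dd i j = 2 then 0 else δ i j) = 0 :=
    fun i j => congrFun (congrFun (congrArg (fun z => z.2.2.1) h) i) j
  have a4 : ∀ i j, (if dd i j = 2 ∨ dd i j = 5 then ε i j else 0) = 0 :=
    fun i j => congrFun (congrFun (congrArg (fun z => z.2.2.2) h) i) j
  have m1 : Sr * Matrix.of ε + Matrix.of δ * Kr = 0 := by
    ext i j
    simpa [Sr, Kr, mul_apply, Finset.sum_add_distrib] using a1 i j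
  have m2 : (56 : ℝ) • Matrix.of ε + Kr * Matrix.of δ * Kr = 0 := by
    have := congrArg (fun Z => Kr * Z) m1
    simp only [Matrix.mul_add, ← Matrix.mul_assoc, KS, Matrix.smul_mul, Matrix.one_mul,
      Matrix.mul_zero] at this
    exact this
  have hδ : δ = 0 := by
    refine inj δ (fun i j => by linarith [a2 i j]) (fun i j hh => by simpa [hh] using a3 i j) ?_
    intro i j hh
    have b := congrFun (congrFun m2 i) j
    have b4 : ε i j = 0 := by simpa [hh] using a4 i j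
    simp only [Matrix.add_apply, Matrix.smul_apply, of_apply, b4, smul_zero, zero_add, mul_apply, Kr,
      Finset.sum_mul, Matrix.zero_apply] at b
    rw [Finset.sum_comm]; exact b
  have hε : ε = 0 := by
    funext i j
    have b := congrFun (congrFun m2 i) j
    have : Matrix.of δ = 0 := by rw [hδ]; rfl
    rw [this] at b
    simpa using b
  rw [hδ, hε]; rfl

theorem isolated : ∃ r : ℝ, 0 < r ∧ ∀ X Y : Matrix (Fin 12) (Fin 12) ℝ,
    (∀ i j, X i j = X j i) → (∀ i, X i i = Sz i i) →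
    (∀ i j, i ≠ j → ¬ (dd i j = 1 ∨ dd i j = 2) → X i j = 0) →
    (∀ i j, (dd i j = 2 ∨ dd i j = 5) → Y i j = 0) →
    X * Y = (56 : ℝ) • (1 : Matrix (Fin 12) (Fin 12) ℝ) →
    (∀ i j, |X i j - Sz i j| < r) → X = Sr := by
  obtain ⟨C, hC, hL⟩ := L.exists_antilipschitzWith L_ker
  have hC' : (0 : ℝ) < C := hC
  refine ⟨1 / (24 * C), by positivity, fun X Y hs hd hH hG hXY hr => ?_⟩
  set δ : V := fun i j => X i j - Sz i j with hδ
  set ε : V := fun i j => Y i j - Kz i j with hε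
  have hn : ‖δ‖ ≤ 1 / (24 * C) := by
    refine (pi_norm_le_iff_of_nonneg (by positivity)).2 fun i => ?_
    refine (pi_norm_le_iff_of_nonneg (by positivity)).2 fun j => ?_
    exact (hr i j).le
  have b1 : ‖(δ, ε)‖ ≤ C * ‖L (δ, ε)‖ := by
    have := hL.le_mul_norm (map_zero L) (δ, ε)
    exact this
  have c1 : (L (δ, ε)).1 = fun i j => - ∑ k, δ i k * ε k j := by
    funext i j
    have x1 := congrFun (congrFun hXY i) j
    have x2 := congrFun (congrFun SK i) j
    rw [← x2] at x1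
    simp only [mul_apply, Sr, Kr, of_apply] at x1
    show ∑ k, ((Sz i k : ℝ) * ε k j + δ i k * (Kz k j : ℝ)) = _
    have : ∑ k, ((Sz i k : ℝ) * ε k j + δ i k * (Kz k j : ℝ)) + ∑ k, δ i k * ε k j
        = ∑ k, X i k * Y k j - ∑ k, (Sz i k : ℝ) * (Kz k j : ℝ) := by
      rw [← Finset.sum_add_distrib, ← Finset.sum_sub_distrib]
      exact Finset.sum_congr rfl fun k _ => by simp only [hδ, hε]; ring
    linarith
  have c2 : (L (δ, ε)).2 = 0 := by
    refine Prod.ext ?_ (Prod.ext ?_ ?_) <;> funext i j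
    · show δ i j - δ j i = 0
      simp only [hδ]; rw [hs i j, h3' i j]; ring
    · show (if dd i j = 1 ∨ dd i j = 2 then 0 else δ i j) = 0
      split_ifs with hh
      · rfl
      · by_cases e : i = j
        · subst e; simp only [hδ]; rw [hd]; ring
        · simp only [hδ]; rw [hH i j e hh, h3 i j e hh]; simp
    · show (if dd i j = 2 ∨ dd i j = 5 then ε i j else 0) = 0
      split_ifs with hh
      · simp only [hε]; rw [hG i j hh, h2 i j hh]; simp
      · rfl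
  have b2 : ‖L (δ, ε)‖ ≤ 12 * (‖δ‖ * ‖ε‖) := by
    rw [Prod.norm_def, c2, norm_zero, c1]
    refine max_le ?_ (by positivity)
    refine (pi_norm_le_iff_of_nonneg (by positivity)).2 fun i => ?_
    refine (pi_norm_le_iff_of_nonneg (by positivity)).2 fun j => ?_
    rw [norm_neg]
    calc ‖∑ k, δ i k * ε k j‖ ≤ ∑ k, ‖δ i k * ε k j‖ := norm_sum_le _ _
      _ ≤ ∑ _k : Fin 12, ‖δ‖ * ‖ε‖ := Finset.sum_le_sum fun k _ => by
          rw [norm_mul]
          exact mul_le_mul ((norm_le_pi_norm (δ i) k).trans (norm_le_pi_norm δ i))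
            ((norm_le_pi_norm (ε k) j).trans (norm_le_pi_norm ε k)) (norm_nonneg _) (norm_nonneg _)
      _ = 12 * (‖δ‖ * ‖ε‖) := by simp
  have b3 : ‖(δ, ε)‖ ≤ ‖ε‖ / 2 := by
    calc ‖(δ, ε)‖ ≤ C * (12 * (‖δ‖ * ‖ε‖)) := b1.trans (by gcongr)
      _ ≤ C * (12 * (1 / (24 * C) * ‖ε‖)) := by gcongr
      _ = ‖ε‖ / 2 := by field_simp; ring
  have b4 : ‖ε‖ ≤ ‖(δ, ε)‖ := norm_snd_le (δ, ε)
  have b5 : ‖δ‖ ≤ ‖(δ, ε)‖ := norm_fst_le (δ, ε)
  have b6 : ‖δ‖ = 0 := by linarith [norm_nonneg δ, norm_nonneg ε]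
  have b7 : δ = 0 := norm_eq_zero.1 b6
  ext i j
  have := congrFun (congrFun b7 i) j
  simp only [hδ, Pi.zero_apply] at this
  simp only [Sr, of_apply]; linarith

theorem Sr_posDef : Sr.PosDef := by
  have e : (4 : ℝ) • Sr = diagonal (fun i => (ez i : ℝ)) +
      (Matrix.of fun i j => (Rz i j : ℝ))ᴴ * diagonal (fun i => (wz i : ℝ)) *
        (Matrix.of fun i j => (Rz i j : ℝ)) := by
    ext i j
    have := congrArg (Int.cast : ℤ → ℝ) (h4 i j)
    push_cast at this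
    simp only [Matrix.smul_apply, Sr, of_apply, smul_eq_mul, Matrix.add_apply, diagonal_apply]
    rw [mul_apply]
    simp only [mul_diagonal, conjTranspose_apply, of_apply, star_trivial]
    rw [← this]; split_ifs <;> ring
  have p : ((4 : ℝ) • Sr).PosDef := by
    rw [e]
    refine PosDef.add_posSemidef (posDef_diagonal_iff.2 fun i => ?_)
      (PosSemidef.conjTranspose_mul_mul_same (PosDef.posSemidef (posDef_diagonal_iff.2 fun i => ?_)) _)
    · exact_mod_cast (h9 i).1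
    · exact_mod_cast (h9 i).2
  have q := p.smul (a := (1 / 4 : ℝ)) (by norm_num)
  rw [smul_smul] at q
  norm_num at q
  exact q

theorem scale {n : ℕ} (G H : SimpleGraph (Fin n)) (S : Matrix (Fin n) (Fin n) ℝ) (e : Fin n → ℝ)
    (he : ∀ i, 0 < e i) (h : S ∈ model G H) : diagonal e * S * diagonal e ∈ model G H := by
  obtain ⟨hp, hg, hh⟩ := h
  have hu : S * S⁻¹ = 1 := mul_nonsing_inv S ((isUnit_iff_isUnit_det S).1 hp.isUnit)
  have d1 : diagonal e * diagonal (fun i => (e i)⁻¹) = 1 := by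
    rw [diagonal_mul_diagonal, ← diagonal_one]
    congr 1; funext i; exact mul_inv_cancel₀ (he i).ne'
  have hi : (diagonal e * S * diagonal e)⁻¹ =
      diagonal (fun i => (e i)⁻¹) * S⁻¹ * diagonal (fun i => (e i)⁻¹) := by
    apply inv_eq_right_inv
    calc _ = diagonal e * (S * (diagonal e * diagonal (fun i => (e i)⁻¹)) * S⁻¹) *
          diagonal (fun i => (e i)⁻¹) := by simp only [Matrix.mul_assoc]
      _ = 1 := by rw [d1, Matrix.mul_one, hu, Matrix.mul_one, d1]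
  refine ⟨?_, fun i j hij hn => ?_, fun i j hij hn => ?_⟩
  · have hc : (diagonal e)ᴴ = diagonal e := by
      rw [diagonal_conjTranspose]; rfl
    have := hp.conjTranspose_mul_mul_same (B := diagonal e) (fun x y hxy => by
      funext i
      have := congrFun hxy i
      rw [mulVec_diagonal, mulVec_diagonal] at this
      exact mul_left_cancel₀ (he i).ne' this)
    rwa [hc] at this
  · rw [hi, mul_diagonal, diagonal_mul, hg i j hij hn]; simp
  · rw [mul_diagonal, diagonal_mul, hh i j hij hn]; simp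

theorem Sr_mem : Sr ∈ model gG gH := by
  have hi : Sr⁻¹ = (1 / 56 : ℝ) • Kr := by
    apply inv_eq_right_inv
    rw [Matrix.mul_smul, SK, smul_smul]; norm_num
  refine ⟨Sr_posDef, fun i j hij hn => ?_, fun i j hij hn => ?_⟩
  · rw [gG_adj] at hn
    have : dd i j = 2 ∨ dd i j = 5 := by
      by_contra hc; exact hn ⟨hij, hc⟩
    rw [hi]; simp [Kr, h2 i j this]
  · rw [gH_adj] at hn
    simp [Sr, h3 i j hij hn]

noncomputable def dv (i : Fin 12) : ℝ := Real.sqrt (Sz i i)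

theorem Sz_pos (i : Fin 12) : (0 : ℝ) < Sz i i := by
  rw [h3d]; have : (0 : ℝ) < ez i := by exact_mod_cast (h9 i).1
  push_cast; linarith

theorem dv_pos (i : Fin 12) : 0 < dv i := Real.sqrt_pos.2 (Sz_pos i)
theorem dv_sq (i : Fin 12) : dv i * dv i = Sz i i := Real.mul_self_sqrt (Sz_pos i).le

noncomputable def S0 : Matrix (Fin 12) (Fin 12) ℝ :=
  diagonal (fun i => (dv i)⁻¹) * Sr * diagonal (fun i => (dv i)⁻¹)

theorem S0_apply (i j : Fin 12) : dv i * S0 i j * dv j = Sz i j := by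
  have := (dv_pos i).ne'
  have := (dv_pos j).ne'
  rw [S0, mul_diagonal, diagonal_mul]
  simp only [Sr, of_apply]
  field_simp

theorem S0_mem : S0 ∈ corrModel gG gH := by
  refine ⟨scale _ _ _ _ (fun i => inv_pos.2 (dv_pos i)) Sr_mem, fun i => ?_⟩
  have a := S0_apply i i
  have b := dv_sq i
  have c := Sz_pos i
  have : (Sz i i : ℝ) * (S0 i i - 1) = 0 := by linear_combination a - S0 i i * b
  rcases mul_eq_zero.1 this with h | h
  · exact absurd h c.ne'
  · linarith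

theorem one_mem {n : ℕ} (G H : SimpleGraph (Fin n)) : (1 : Matrix (Fin n) (Fin n) ℝ) ∈ corrModel G H := by
  refine ⟨⟨PosDef.one, fun i j hij _ => ?_, fun i j hij _ => ?_⟩, fun i => one_apply_eq i⟩
  · rw [inv_one]; exact one_apply_ne hij
  · exact one_apply_ne hij

theorem corr_disc : ¬ IsPreconnected (corrModel gG gH) := by
  obtain ⟨r, hr, hiso⟩ := isolated
  intro hc
  have hU : IsOpen {S : Matrix (Fin 12) (Fin 12) ℝ | ∀ i j, |dv i * S i j * dv j - Sz i j| < r} := by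
    simp only [Set.setOf_forall]
    refine isOpen_iInter_of_finite fun i => isOpen_iInter_of_finite fun j => ?_
    exact isOpen_lt (by fun_prop) continuous_const
  have h0U : ∀ i j, |dv i * S0 i j * dv j - Sz i j| < r := fun i j => by
    rw [S0_apply]; simpa using hr
  obtain ⟨S, hS, hSU, hSV⟩ := hc _ {S0}ᶜ hU isOpen_compl_singleton
    (fun S _ => by
      by_cases e : S = S0
      · left; rw [e]; exact h0U
      · right; exact e)
    ⟨S0, S0_mem, h0U⟩
    ⟨1, one_mem _ _, fun e => by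
      have e' : (1 : Matrix (Fin 12) (Fin 12) ℝ) = S0 := e
      have a := S0_apply 0 1
      rw [← e', one_apply_ne (by decide)] at a
      have b : Sz 0 1 = -7 := by decide +kernel
      rw [b] at a; norm_num at a⟩
  apply hSV
  have hX := scale _ _ _ dv dv_pos hS.1
  set X := diagonal dv * S * diagonal dv with hXd
  have hXa : ∀ i j, X i j = dv i * S i j * dv j := fun i j => by
    rw [hXd, mul_diagonal, diagonal_mul]
  have hu : X * X⁻¹ = 1 := mul_nonsing_inv X ((isUnit_iff_isUnit_det X).1 hX.1.isUnit)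
  have hE : X = Sr := by
    refine hiso X ((56 : ℝ) • X⁻¹) (fun i j => ?_) (fun i => ?_) (fun i j hij hn => ?_)
      (fun i j hh => ?_) ?_ (fun i j => ?_)
    · have := hX.1.isHermitian.apply j i
      simpa using this
    · rw [hXa, hS.2 i, mul_one, dv_sq]
    · exact hX.2.2 i j hij (by rwa [gH_adj])
    · rw [Matrix.smul_apply, hX.2.1 i j (h8 i j hh) (by rw [gG_adj]; exact fun z => z.2 hh)]; simp
    · rw [Matrix.mul_smul, hu]
    · rw [hXa]; exact hSU i j
  show S = S0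
  ext i j
  have a := hXa i j
  rw [hE] at a
  have b := S0_apply i j
  simp only [Sr, of_apply] at a
  have c : dv i * dv j * (S i j - S0 i j) = 0 := by linear_combination -a - b
  rcases mul_eq_zero.1 c with h | h
  · exact absurd h (mul_pos (dv_pos i) (dv_pos j)).ne'
  · linarith

theorem model_disc : ¬ IsPreconnected (model gG gH) := by
  intro hc
  apply corr_disc
  let N : Matrix (Fin 12) (Fin 12) ℝ → Matrix (Fin 12) (Fin 12) ℝ := fun S =>
    diagonal (fun i => (Real.sqrt (S i i))⁻¹) * S * diagonal (fun i => (Real.sqrt (S i i))⁻¹)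
  have hN : ∀ S i j, N S i j = (Real.sqrt (S i i))⁻¹ * S i j * (Real.sqrt (S j j))⁻¹ :=
    fun S i j => by simp only [N]; rw [mul_diagonal, diagonal_mul]
  have hpos : ∀ S ∈ model gG gH, ∀ i, 0 < S i i := fun S hS i => hS.1.diag_pos
  have hcont : ContinuousOn N (model gG gH) := by
    refine continuousOn_pi.2 fun i => continuousOn_pi.2 fun j => ?_
    simp only [hN]
    have q : ∀ i, ContinuousOn (fun S : Matrix (Fin 12) (Fin 12) ℝ => (Real.sqrt (S i i))⁻¹)
        (model gG gH) := fun i =>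
      ContinuousOn.inv₀ (by fun_prop) fun S hS => (Real.sqrt_pos.2 (hpos S hS i)).ne'
    exact ((q i).mul (by fun_prop)).mul (q j)
  have him : N '' model gG gH = corrModel gG gH := by
    apply Set.Subset.antisymm
    · rintro _ ⟨S, hS, rfl⟩
      refine ⟨scale _ _ _ _ (fun i => inv_pos.2 (Real.sqrt_pos.2 (hpos S hS i))) hS, fun i => ?_⟩
      rw [hN]
      have a := Real.mul_self_sqrt (hpos S hS i).le
      have b := (Real.sqrt_pos.2 (hpos S hS i)).ne'
      field_simp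
      linarith
    · intro S hS
      refine ⟨S, hS.1, ?_⟩
      ext i j
      rw [hN, hS.2 i, hS.2 j]; simp
  rw [← him]
  exact hc.image N hcont

theorem result : ∃ (n : ℕ) (G H : SimpleGraph (Fin n)), 1 ≤ n ∧
    ¬ IsConnected (model G H) ∧ ¬ IsConnected (corrModel G H) :=
  ⟨12, gG, gH, by norm_num, fun h => model_disc h.2, fun h => corr_disc h.2⟩

end Pool.Agent.Results.MP_e0e142_ag.Q1
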